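import Pool.Agent.L7h83.HO.Stm

/-!
# Project HO: SHN, the form Re z^8 + t^8
-/

set_option autoImplicit false

open MvPolynomial

namespace Pool.Agent.L7h24.HO

open Pool.Agent.L7h17.OC Pool.Agent.L7h83.HO

/-- the form -/
noncomputable def G : MvPolynomial (Fin 3) ℝ :=
  X 0 ^ 8 - C 28 * (X 0 ^ 6 * X 1 ^ 2) + C 70 * (X 0 ^ 4 * X 1 ^ 4) - C 28 * (X 0 ^ 2 * X 1 ^ 6) + X 1 ^ 8 + X 2 ^ 8

lemma re8 (w : ℂ) : (w ^ 8).re =
    w.re ^ 8 - 28 * (w.re ^ 6 * w.im ^ 2) + 70 * (w.re ^ 4 * w.im ^ 4) - 28 * (w.re ^ 2 * w.im ^ 6) + w.im ^ 8 := by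
  have : w ^ 8 = ((w ^ 2) ^ 2) ^ 2 := by ring
  rw [this]
  simp only [pow_two, Complex.mul_re, Complex.mul_im]
  ring

lemma eval_G (x y t : ℝ) : eval ![x, y, t] G = (((x : ℂ) + y * Complex.I) ^ 8).re + t ^ 8 := by
  rw [re8]
  have h1 : ((x : ℂ) + y * Complex.I).re = x := by simp
  have h2 : ((x : ℂ) + y * Complex.I).im = y := by simp
  rw [h1, h2]
  simp [G]

lemma hom_G : G.IsHomogeneous 8 := by
  have hx : ∀ i : Fin 3, (X i : MvPolynomial (Fin 3) ℝ).IsHomogeneous 1 := fun i => isHomogeneous_X _ i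
  have hp : ∀ (i : Fin 3) (n : ℕ), (X i ^ n : MvPolynomial (Fin 3) ℝ).IsHomogeneous n := by
    intro i n
    simpa using (hx i).pow n
  have hm : ∀ (c : ℝ) (m n : ℕ), m + n = 8 →
      (C c * (X 0 ^ m * X 1 ^ n) : MvPolynomial (Fin 3) ℝ).IsHomogeneous 8 := by
    intro c m n h
    have := (isHomogeneous_C (Fin 3) c).mul ((hp 0 m).mul (hp 1 n))
    rwa [h, zero_add] at this
  rw [G]
  exact ((((((hp 0 8).sub (hm 28 6 2 rfl)).add (hm 70 4 4 rfl)).sub (hm 28 2 6 rfl)).add (hp 1 8)).add (hp 2 8))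

lemma nonsing_G : Nonsing G := by
  rintro v hv ⟨-, h⟩
  have h0 := h 0
  have h1 := h 1
  have h2 := h 2
  have e0 : aeval v (pderiv 0 G) =
      8 * v 0 ^ 7 - 168 * (v 0 ^ 5 * v 1 ^ 2) + 280 * (v 0 ^ 3 * v 1 ^ 4) - 56 * (v 0 * v 1 ^ 6) := by
    simp [G, pderiv_mul, pderiv_pow, pderiv_X_self, pderiv_X_of_ne, pderiv_C]
    ring
  have e1 : aeval v (pderiv 1 G) =
      8 * v 1 ^ 7 - 168 * (v 0 ^ 2 * v 1 ^ 5) + 280 * (v 0 ^ 4 * v 1 ^ 3) - 56 * (v 0 ^ 6 * v 1) := by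
    simp [G, pderiv_mul, pderiv_pow, pderiv_X_self, pderiv_X_of_ne, pderiv_C]
    ring
  have e2 : aeval v (pderiv 2 G) = 8 * v 2 ^ 7 := by
    simp [G, pderiv_mul, pderiv_pow, pderiv_X_self, pderiv_X_of_ne, pderiv_C]
  rw [e0] at h0
  rw [e1] at h1
  rw [e2] at h2
  set x := v 0
  set y := v 1
  have ht : v 2 = 0 := by
    have : v 2 ^ 7 = 0 := by linear_combination h2 / 8
    exact pow_eq_zero_iff (by norm_num) |>.1 this
  have hI := Complex.I_sq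
  have ha : (x + Complex.I * y) ^ 7 = 0 := by
    linear_combination (1 / 8) * h0 - Complex.I / 8 * h1 +
      (21 * x ^ 5 * y ^ 2 + 35 * x ^ 3 * y ^ 4 * (Complex.I ^ 2 - 1) +
        7 * x * y ^ 6 * (Complex.I ^ 4 - Complex.I ^ 2 + 1) +
        Complex.I * (35 * x ^ 4 * y ^ 3 + 21 * x ^ 2 * y ^ 5 * (Complex.I ^ 2 - 1) +
          y ^ 7 * (Complex.I ^ 4 - Complex.I ^ 2 + 1))) * hI
  have hb : (x - Complex.I * y) ^ 7 = 0 := by
    linear_combination (1 / 8) * h0 + Complex.I / 8 * h1 +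
      (21 * x ^ 5 * y ^ 2 + 35 * x ^ 3 * y ^ 4 * (Complex.I ^ 2 - 1) +
        7 * x * y ^ 6 * (Complex.I ^ 4 - Complex.I ^ 2 + 1) -
        Complex.I * (35 * x ^ 4 * y ^ 3 + 21 * x ^ 2 * y ^ 5 * (Complex.I ^ 2 - 1) +
          y ^ 7 * (Complex.I ^ 4 - Complex.I ^ 2 + 1))) * hI
  have ha' := (pow_eq_zero_iff (by norm_num)).1 ha
  have hb' := (pow_eq_zero_iff (by norm_num)).1 hb
  have hx : x = 0 := by linear_combination (ha' + hb') / 2
  have hy : y = 0 := by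
    have : Complex.I * y = 0 := by linear_combination (ha' - hb') / 2
    rcases mul_eq_zero.1 this with h | h
    · exact absurd h Complex.I_ne_zero
    · exact h
  apply hv
  funext i
  fin_cases i
  · exact hx
  · exact hy
  · exact ht

theorem s_SHN : SHN := by
  refine ⟨G, hom_G, nonsing_G, ⟨?_, ?_⟩, eval_G⟩
  · rw [← Polynomial.C_1]
    exact Polynomial.natDegree_X_pow_add_C
  · intro x y t
    rw [eval_G]
    simp [Finset.sum_range_succ, Polynomial.coeff_X_pow, Polynomial.coeff_one]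
    rw [← Complex.ofReal_pow, Complex.ofReal_re]
    ring

end Pool.Agent.L7h24.HO
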